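import Pool.Agent.Lib.MP_f52611_an.Sys

set_option autoImplicit false

open Filter MeasureTheory Asymptotics Polynomial

namespace Pool.Agent.Results.MP_f52611_an.NoPowerExpansion

/-- `p` are the orthonormal polynomials of `exp (-|x| ^ α) dx` with positive leading coefficients
and `a` are their recurrence coefficients, `x p_n = a_{n+1} p_{n+1} + a_n p_{n-1}`, `p_{-1} = 0`. -/
structure IsFreudSystem (α : ℝ) (p : ℕ → ℝ[X]) (a : ℕ → ℝ) : Prop where
  natDegree_eq : ∀ n, (p n).natDegree = n
  leadingCoeff_pos : ∀ n, 0 < (p n).leadingCoeff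
  integrable : ∀ m n, Integrable fun x : ℝ =>
    (p m).eval x * (p n).eval x * Real.exp (-(|x| ^ α))
  integral_eq : ∀ m n, ∫ x : ℝ, (p m).eval x * (p n).eval x * Real.exp (-(|x| ^ α)) =
    if m = n then 1 else 0
  recurrence_zero : X * p 0 = C (a 1) * p 1
  recurrence : ∀ n, 1 ≤ n → X * p n = C (a (n + 1)) * p (n + 1) + C (a n) * p (n - 1)

/-- the constant `C(α)` of the problem -/
noncomputable def freudConst (α : ℝ) : ℝ :=
  2 ^ α * Real.Gamma ((α + 1) / 2) / (Real.sqrt Real.pi * Real.Gamma (α / 2))

/-- The expansion of the problem, with the exponents `i_k` in the set `I` and the exponents `j_k`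
in the set `J`: both sets have finitely many elements below every real `T` (so they are the sets of
terms of strictly increasing sequences which are finite or tend to infinity), and for every `T > 0`
the coefficient `a n` is the truncated sum over the exponents below `T` up to `O(n^(-T))`,
relative to the factor `(n / C(α)) ^ (1 / α)`. -/
structure HasExpansion (α : ℝ) (a : ℕ → ℝ) (I J : Set ℝ) (A B : ℝ → ℝ) : Prop where
  finite_left : ∀ T : ℝ, (I ∩ Set.Iio T).Finite
  finite_right : ∀ T : ℝ, (J ∩ Set.Iio T).Finite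
  expansion : ∀ T : ℝ, 0 < T →
    (fun n : ℕ => a n - ((n : ℝ) / freudConst α) ^ (1 / α) *
      (∑ᶠ i ∈ I ∩ Set.Iio T, A i * (n : ℝ) ^ (-i) +
        (-1 : ℝ) ^ n * ∑ᶠ j ∈ J ∩ Set.Iio T, B j * (n : ℝ) ^ (-j)))
      =O[atTop] fun n : ℕ => ((n : ℝ) / freudConst α) ^ (1 / α) * (n : ℝ) ^ (-T)

/-- For `α = 3` the recurrence coefficients exist and have no expansion of the conjectured form,
whatever the exponents are; the exponents of the alternating part only need to be at least `α`. -/
theorem result : (∃ p a, IsFreudSystem 3 p a) ∧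
    ∀ p a, IsFreudSystem 3 p a → ∀ (I J : Set ℝ) (A B : ℝ → ℝ), IsLeast I 0 → A 0 = 1 →
      (∀ j ∈ J, 3 ≤ j) → ¬ HasExpansion 3 a I J A B := by
  constructor
  · obtain ⟨p, a, h1, h2, h3, h4, h5⟩ := F526.exists_sys
    refine ⟨p, a, h1, h2, fun m n => ?_, fun m n => ?_, h4, h5⟩
    · have := F526.good_wt.int (p m * p n)
      simpa only [eval_mul, F526.wt] using this
    · have := h3 m n
      rw [F526.Lf, F526.fnl_apply] at this
      simpa only [eval_mul, F526.wt] using this
  · intro p a hs I J A B hI hA hJ hE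
    have hort : ∀ m n, F526.Lf (p m * p n) = if m = n then 1 else 0 := by
      intro m n
      rw [F526.Lf, F526.fnl_apply, ← hs.integral_eq m n]
      simp only [eval_mul, F526.wt]
    have ha := F526.sys_a hs.natDegree_eq hs.leadingCoeff_pos hort hs.recurrence_zero hs.recurrence
    -- the determinants
    let μ : ℕ → ℝ := fun k => ∫ x : ℝ, x ^ k * Real.exp (-(|x| ^ (3:ℝ)))
    let D : ℕ → ℝ := fun m => (Matrix.of fun i j : Fin m => μ (i.val + j.val)).det
    have hμL : ∀ k, μ k = F526.Lf (X ^ k) := by
      intro k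
      change _ = ∫ x, (X ^ k : ℝ[X]).eval x * F526.wt x
      simp only [eval_pow, eval_X, F526.wt, μ]
    have hDL : ∀ m, D m = ∏ k ∈ Finset.range m, F526.opH F526.Lf k := by
      intro m
      change (Matrix.of fun i j : Fin m => μ (i.val + j.val)).det = _
      rw [← F526.op_det F526.Lf F526.Lf_odd F526.Lf_pos m]
      congr 2
      ext i j
      exact hμL _
    refine F526.final μ (fun _ => rfl) D (fun _ => rfl) a (fun n hn => ?_) ?_
    · obtain ⟨k, rfl⟩ : ∃ k, n = k + 1 := ⟨n - 1, by omega⟩
      rw [ha k, hDL, hDL, hDL]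
      congr 1
      have h0 : 0 < ∏ j ∈ Finset.range k, F526.opH F526.Lf j :=
        Finset.prod_pos fun j _ => F526.opH_pos F526.Lf F526.Lf_pos j
      have h1 := F526.opH_pos F526.Lf F526.Lf_pos k
      have h2 := F526.opH_pos F526.Lf F526.Lf_pos (k + 1)
      rw [Nat.add_sub_cancel, Finset.prod_range_succ, Finset.prod_range_succ]
      unfold F526.opB
      field_simp
    · have hc : freudConst 3 =
          Real.Gamma ((3:ℝ) + 1) / (Real.Gamma ((3:ℝ) / 2) * Real.Gamma ((3:ℝ) / 2 + 1)) :=
        F526.const_eq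
      rw [← hc]
      have hcpos : 0 < freudConst 3 := by
        rw [hc]
        have h1 := Real.Gamma_pos_of_pos (show (0:ℝ) < 3 + 1 by norm_num)
        have h2 := Real.Gamma_pos_of_pos (show (0:ℝ) < 3 / 2 by norm_num)
        have h3 := Real.Gamma_pos_of_pos (show (0:ℝ) < 3 / 2 + 1 by norm_num)
        positivity
      exact F526.exp_reduce hcpos hE.finite_left hE.finite_right hI hA hJ hE.expansion

end Pool.Agent.Results.MP_f52611_an.NoPowerExpansion
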